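import Mathlib

namespace Pool.Agent.Results.MP_388f8c_an.Gong

open Filter Topology BoundedContinuousFunction
open scoped Pointwise

section
variable {X : Type} [NormedAddCommGroup X] [NormedSpace ℝ X]

/-- Pointed convex cones. -/
def IsCone (C : Set X) : Prop :=
  C.Nonempty ∧ (∀ x ∈ C, ∀ y ∈ C, x + y ∈ C) ∧ (∀ l : ℝ, 0 ≤ l → ∀ x ∈ C, l • x ∈ C) ∧
    C ∩ -C = {0}

/-- Bases of a cone. -/
def IsBase (C B : Set X) : Prop :=
  B.Nonempty ∧ Convex ℝ B ∧ B ⊆ C ∧ (0 : X) ∉ closure B ∧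
    ∀ c ∈ C, c ≠ 0 → ∃! p : ℝ × X, 0 < p.1 ∧ p.2 ∈ B ∧ c = p.1 • p.2

/-- Condition (∗). -/
def Star (C : Set X) : Prop :=
  ∀ ε : ℝ, 0 < ε → ε < 1 →
    toWeakSpace ℝ X 0 ∉ closure (toWeakSpace ℝ X '' (C \ ε • Metric.closedBall 0 1))

end

/-- the space -/
def W : Submodule ℝ (ℝ × ℝ × (ℕ →ᵇ ℝ)) where
  carrier := {p | Tendsto (fun k : ℕ => (k : ℝ) * p.2.2 k) atTop (𝓝 p.1)}
  add_mem' ha hb := by simpa [mul_add] using Tendsto.add ha hb
  zero_mem' := by simp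
  smul_mem' c p hp := by simpa [mul_left_comm] using Tendsto.const_mul c hp

/-- the cone -/
def K : Set W := {p | ‖p.1.2.2‖ ≤ p.1.2.1}

/-- test vectors -/
noncomputable def z (n : ℕ) : ℕ →ᵇ ℝ :=
  ofNormedAddCommGroupDiscrete (fun k : ℕ => 1 / ((k : ℝ) + (n + 1))) (1 / (n + 1)) fun k => by
    rw [Real.norm_of_nonneg (by positivity)]
    exact one_div_le_one_div_of_le (by positivity) (by linarith [Nat.cast_nonneg (α := ℝ) k])

lemma z_norm (n : ℕ) : ‖z n‖ ≤ 1 / (n + 1) :=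
  (norm_le (by positivity)).mpr fun k => by
    show ‖1 / ((k : ℝ) + (n + 1))‖ ≤ _
    rw [Real.norm_of_nonneg (by positivity)]
    exact one_div_le_one_div_of_le (by positivity) (by linarith [Nat.cast_nonneg (α := ℝ) k])

lemma z_lim (n : ℕ) : Tendsto (fun k : ℕ => (k : ℝ) * z n k) atTop (𝓝 1) := by
  have := tendsto_natCast_div_add_atTop (𝕜 := ℝ) ((n : ℝ) + 1)
  refine this.congr fun k => ?_
  show _ = (k : ℝ) * (1 / ((k : ℝ) + (n + 1)))
  rw [mul_one_div]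

lemma norm_K {p : W} (h : p ∈ K) : ‖p‖ = max |p.1.1| p.1.2.1 := by
  have h' : ‖p.1.2.2‖ ≤ p.1.2.1 := h
  show max ‖p.1.1‖ (max ‖p.1.2.1‖ ‖p.1.2.2‖) = _
  rw [Real.norm_of_nonneg ((norm_nonneg _).trans h'), max_eq_left h', Real.norm_eq_abs]

lemma dz (p : W) : dist p 0 = ‖p‖ := dist_zero_right (E := W) p

lemma ns (t : ℝ) (p : W) : ‖t • p‖ = ‖t‖ * ‖p‖ := norm_smul t p.1

theorem result : ∃ (X : Type) (_ : NormedAddCommGroup X) (_ : NormedSpace ℝ X) (C : Set X),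
    IsCone C ∧ IsClosed C ∧ Star C ∧ ¬ ∃ B, IsBase C B ∧ Bornology.IsBounded B := by
  refine ⟨W, inferInstance, inferInstance, K, ⟨⟨0, by simp [K]⟩, fun x hx y hy => ?_,
    fun l hl x hx => ?_, ?_⟩, isClosed_le (by fun_prop) (by fun_prop), fun ε hε _ h => ?_, ?_⟩
  · exact (norm_add_le _ _).trans (add_le_add hx hy)
  · show ‖l • x.1.2.2‖ ≤ l * x.1.2.1
    rw [norm_smul, Real.norm_of_nonneg hl]
    exact mul_le_mul_of_nonneg_left hx hl
  · ext p
    refine ⟨fun ⟨h1, h2⟩ => ?_, by rintro rfl; simp [K]⟩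
    have h3 : ‖p.1.2.2‖ ≤ p.1.2.1 := h1
    have h4 : ‖-p.1.2.2‖ ≤ -p.1.2.1 := h2
    rw [norm_neg] at h4
    have h5 : p.1.2.2 = 0 := norm_le_zero_iff.mp (by linarith)
    have h6 : Tendsto (fun k : ℕ => (k : ℝ) * p.1.2.2 k) atTop (𝓝 p.1.1) := p.2
    rw [h5, norm_zero] at h3 h4
    simp only [h5, coe_zero, Pi.zero_apply, mul_zero] at h6
    exact Subtype.ext (Prod.ext (tendsto_nhds_unique h6 tendsto_const_nhds)
      (Prod.ext (show p.1.2.1 = 0 by linarith) h5))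
  · let f : W →L[ℝ] ℝ := (ContinuousLinearMap.fst ℝ _ _).comp W.subtypeL
    let g : W →L[ℝ] ℝ :=
      ((ContinuousLinearMap.fst ℝ _ _).comp (ContinuousLinearMap.snd ℝ _ _)).comp W.subtypeL
    have hc : ∀ f : W →L[ℝ] ℝ, Continuous fun x : WeakSpace ℝ W => f ((toWeakSpace ℝ W).symm x) :=
      fun f => WeakBilin.eval_continuous _ f
    have hcl : IsClosed {x : WeakSpace ℝ W | ε ≤ max |f ((toWeakSpace ℝ W).symm x)|
        (g ((toWeakSpace ℝ W).symm x))} :=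
      isClosed_le continuous_const ((hc f).abs.max (hc g))
    have := hcl.closure_subset_iff.mpr (by
      rintro _ ⟨p, ⟨h1, h2⟩, rfl⟩
      rw [_root_.smul_closedBall _ _ zero_le_one, smul_zero, Metric.mem_closedBall, dz,
        norm_K h1,
        Real.norm_of_nonneg hε.le, mul_one] at h2
      exact (not_le.mp h2).le) h
    simp at this
    linarith
  · rintro ⟨B, ⟨-, h1, h2, h3, h4⟩, h5⟩
    obtain ⟨M, hM, h6'⟩ := h5.subset_closedBall_lt 0 0
    have h6 : ∀ b ∈ B, ‖b‖ ≤ M := fun b hb => dz b ▸ h6' hb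
    apply h3
    rw [Metric.mem_closure_iff]
    intro ε hε
    obtain ⟨n, hn⟩ := exists_nat_one_div_lt (div_pos hε hM)
    have h7 : ∀ c ∈ K, |c.1.1| = 1 → ∃ l b, M⁻¹ ≤ l ∧ b ∈ B ∧ c = l • b := by
      intro c hc h
      have h8 : 1 ≤ ‖c‖ := by rw [norm_K hc, h]; exact le_max_left _ _
      obtain ⟨⟨l, b⟩, ⟨k1, k2, k3⟩, -⟩ := h4 c hc (by rintro rfl; simp at h)
      refine ⟨l, b, ?_, k2, k3⟩
      rw [k3, norm_smul, Real.norm_of_nonneg k1.le] at h8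
      rw [inv_le_iff_one_le_mul₀ hM]
      exact h8.trans (mul_le_mul_of_nonneg_left (h6 b k2) k1.le)
    obtain ⟨l, b, k1, k2, k3⟩ := h7 ⟨(1, 1 / (n + 1), z n), z_lim n⟩ (z_norm n) (by simp)
    obtain ⟨m, d, k4, k5, k6⟩ := h7 ⟨(-1, 1 / (n + 1), -z n), by
      simpa [W] using (z_lim n).neg⟩ (by simpa [K] using z_norm n) (by simp)
    have hi : 0 < M⁻¹ := inv_pos.mpr hM
    have hs : 0 < l + m := by linarith
    refine ⟨_, h1 k2 k5 (a := l / (l + m)) (b := m / (l + m)) (div_nonneg (by linarith) hs.le)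
      (div_nonneg (by linarith) hs.le) (by field_simp), ?_⟩
    rw [dist_comm, dz, div_eq_inv_mul, div_eq_inv_mul, mul_smul, mul_smul, ← smul_add, ← k3, ← k6,
      ns, Real.norm_of_nonneg (inv_pos.mpr hs).le, inv_mul_lt_iff₀ hs]
    have e : (0 : ℝ) ≤ 1 / (n + 1) + 1 / (n + 1) := by positivity
    rw [norm_K (by simpa [K] using e)]
    simp only [Submodule.coe_add, Prod.fst_add, add_neg_cancel, abs_zero, Prod.snd_add]
    rw [max_eq_right e]
    rw [div_eq_mul_inv ε] at hn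
    nlinarith

end Pool.Agent.Results.MP_388f8c_an.Gong
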